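import Pool.Agent.Work.MP_db9399_da_helper72.Stm2

/-!
# Block LAM (helper22)

Bundles of at most four disjoint edges with zero signed sums, then the few remaining edges,
all coloured greedily.
-/

set_option autoImplicit false
set_option linter.unusedSimpArgs false

namespace Pool.Agent.Work.MP_db9399_da_helper22

open Finset Classical
open Pool.Agent.Work.MP_db9399_da_helper72

universe u

namespace LAMAux

variable {V : Type u}

/-- no common vertex -/
def dis (p q : V × V) : Prop := p.1 ≠ q.1 ∧ p.1 ≠ q.2 ∧ p.2 ≠ q.1 ∧ p.2 ≠ q.2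

theorem dis_symm {p q : V × V} (h : dis p q) : dis q p :=
  ⟨h.1.symm, h.2.2.1.symm, h.2.1.symm, h.2.2.2.symm⟩

/-- sum over ordered pairs = sum over the edges -/
theorem swap_sum [Fintype V] (R : V → V → Prop) (hs : ∀ v w, R v w → R w v) (hi : ∀ v, ¬ R v v)
    (key : V → ℕ) (hk : Function.Injective key) (g : V → ℤ) :
    ∑ v, ∑ w ∈ univ.filter (fun w => R v w), g v =
      ∑ p ∈ (univ : Finset (V × V)).filter (fun p => R p.1 p.2 ∧ key p.1 < key p.2),
        (g p.1 + g p.2) := by
  have h1 : ∑ v, ∑ w ∈ univ.filter (fun w => R v w), g v =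
      ∑ p ∈ (univ : Finset (V × V)).filter (fun p => R p.1 p.2), g p.1 := by
    rw [sum_filter, Fintype.sum_prod_type]
    apply sum_congr rfl
    intro v _
    rw [sum_filter]
  rw [h1, ← sum_filter_add_sum_filter_not _ (fun p : V × V => key p.1 < key p.2), filter_filter,
    filter_filter, sum_add_distrib]
  congr 1
  apply sum_bij (fun p _ => (p.2, p.1))
  · intro p hp
    obtain ⟨_, h2, h3⟩ := mem_filter.1 hp
    rw [mem_filter]
    refine ⟨mem_univ _, hs _ _ h2, ?_⟩
    have h4 : key p.2 ≠ key p.1 := fun h => hi p.1 (by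
      have := hk h
      rw [this] at h2
      exact h2)
    simp only
    omega
  · intro p _ q _ h
    simp only [Prod.mk.injEq] at h
    exact Prod.ext h.2 h.1
  · intro p hp
    obtain ⟨_, h2, h3⟩ := mem_filter.1 hp
    refine ⟨(p.2, p.1), ?_, rfl⟩
    rw [mem_filter]
    refine ⟨mem_univ _, hs _ _ h2, ?_⟩
    simp only
    omega
  · intro p _
    rfl

/-- sum after colouring the edges of `B` with `b` -/
theorem upd_sum {M : Type*} [AddCommMonoid M] (C B : Finset (V × V)) (hB : Disjoint C B)
    (col : V × V → ℕ) (b b' : ℕ) (h : V × V → M) :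
    ∑ q ∈ (C ∪ B).filter (fun q => (if q ∈ B then b else col q) = b'), h q =
      ∑ q ∈ C.filter (fun q => col q = b'), h q + if b' = b then ∑ q ∈ B, h q else 0 := by
  rw [filter_union, sum_union (disjoint_filter_filter hB)]
  congr 1
  · apply sum_congr _ (fun _ _ => rfl)
    apply filter_congr
    intro q hq
    rw [if_neg (Finset.disjoint_left.1 hB hq)]
  · by_cases hb : b' = b
    · rw [if_pos hb]
      apply sum_congr _ (fun _ _ => rfl)
      apply filter_true_of_mem
      intro q hq
      rw [if_pos hq, hb]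
    · rw [if_neg hb, filter_false_of_mem, sum_empty]
      intro q hq h2
      rw [if_pos hq] at h2
      exact hb h2.symm

theorem upd_card (C B : Finset (V × V)) (hB : Disjoint C B)
    (col : V × V → ℕ) (b b' : ℕ) :
    ((C ∪ B).filter (fun q => (if q ∈ B then b else col q) = b')).card =
      (C.filter (fun q => col q = b')).card + if b' = b then B.card else 0 := by
  rw [card_eq_sum_ones, upd_sum C B hB col b b' (fun _ => 1), ← card_eq_sum_ones,
    ← card_eq_sum_ones]

/-- a partial colouring: the edges of `C` are coloured -/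
structure St (L : SimpleGraph V) (key : V → ℕ) (F : V → Finset ℕ) (P2 : Finset ℕ) (cap : ℕ)
    (C : Finset (V × V)) (col : V × V → ℕ) : Prop where
  sub : ∀ p ∈ C, L.Adj p.1 p.2 ∧ key p.1 < key p.2
  pr : ∀ p ∈ C, ∀ q ∈ C, p ≠ q → col p = col q → dis p q
  inn : ∀ p ∈ C, col p ∈ P2 ∧ col p ∉ F p.1 ∧ col p ∉ F p.2
  ld : ∀ b ∈ P2, 2 * (C.filter (fun p => col p = b)).card ≤ cap

theorem inc_card [Fintype V] {L : SimpleGraph V} {key : V → ℕ} {Δ : ℕ}
    (hΔ : ∀ v, (univ.filter fun w => L.Adj v w).card ≤ Δ) (C : Finset (V × V))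
    (hC : ∀ p ∈ C, L.Adj p.1 p.2 ∧ key p.1 < key p.2) (v : V) :
    (C.filter (fun q => q.1 = v ∨ q.2 = v)).card ≤ Δ := by
  refine le_trans ?_ (hΔ v)
  apply card_le_card_of_injOn (fun q => if q.1 = v then q.2 else q.1)
  · intro q hq
    obtain ⟨hq1, hq2⟩ := mem_filter.1 hq
    obtain ⟨h1, _⟩ := hC q hq1
    rw [mem_coe, mem_filter]
    refine ⟨mem_univ _, ?_⟩
    by_cases h : q.1 = v
    · simp only [h, if_true]
      rw [h] at h1
      exact h1
    · simp only [h, if_false]
      rcases hq2 with h2 | h2
      · exact absurd h2 h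
      · rw [h2] at h1
        exact h1.symm
  · intro q hq q' hq' h
    obtain ⟨hq1, hq2⟩ := mem_filter.1 hq
    obtain ⟨hq1', hq2'⟩ := mem_filter.1 hq'
    obtain ⟨_, h1⟩ := hC q hq1
    obtain ⟨_, h1'⟩ := hC q' hq1'
    simp only at h
    by_cases h2 : q.1 = v <;> by_cases h3 : q'.1 = v
    · rw [if_pos h2, if_pos h3] at h
      exact Prod.ext (h2.trans h3.symm) h
    · rw [if_pos h2, if_neg h3] at h
      have h4 : q'.2 = v := hq2'.resolve_left h3
      rw [h2, h] at h1
      rw [h4] at h1'
      omega
    · rw [if_neg h2, if_pos h3] at h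
      have h4 : q.2 = v := hq2.resolve_left h2
      rw [h3, ← h] at h1'
      rw [h4] at h1
      omega
    · rw [if_neg h2, if_neg h3] at h
      exact Prod.ext h ((hq2.resolve_left h2).trans (hq2'.resolve_left h3).symm)

/-- extension by a few disjoint edges -/
theorem ext [Fintype V] {L : SimpleGraph V} {key : V → ℕ} (hk : Function.Injective key)
    {F : V → Finset ℕ} {P2 : Finset ℕ} {cap Δ f : ℕ}
    (hΔ : ∀ v, (univ.filter fun w => L.Adj v w).card ≤ Δ) (hF : ∀ v, (F v ∩ P2).card ≤ f)
    (h1 : 16 * f + 16 * Δ < P2.card)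
    (h2 : 4 * Δ * Fintype.card V + 8 * P2.card ≤ P2.card * cap)
    {C : Finset (V × V)} {col : V × V → ℕ} (hS : St L key F P2 cap C col)
    (B : Finset (V × V)) (hB0 : B.Nonempty) (hB4 : B.card ≤ 4)
    (hBD : ∀ p ∈ B, L.Adj p.1 p.2 ∧ key p.1 < key p.2)
    (hBC : Disjoint C B) (hBd : ∀ p ∈ B, ∀ q ∈ B, p ≠ q → dis p q)
    (Bad : Finset ℕ) (hBad : 4 * Bad.card ≤ P2.card) :
    ∃ b ∈ P2, b ∉ Bad ∧ St L key F P2 cap (C ∪ B) (fun q => if q ∈ B then b else col q) := by
  set N1 : Finset ℕ := B.biUnion (fun p => (F p.1 ∩ P2) ∪ (F p.2 ∩ P2)) with hN1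
  set N2 : Finset ℕ := B.biUnion (fun p => (C.filter (fun q => ¬ dis p q)).image col) with hN2
  set N3 : Finset ℕ := P2.filter (fun b => cap < 2 * (C.filter (fun p => col p = b)).card + 8)
    with hN3
  have c1 : N1.card ≤ 8 * f := by
    refine le_trans (card_biUnion_le_card_mul _ _ (2 * f) ?_) (by nlinarith)
    intro p _
    have := card_union_le (F p.1 ∩ P2) (F p.2 ∩ P2)
    have := hF p.1
    have := hF p.2
    omega
  have c2 : N2.card ≤ 8 * Δ := by
    refine le_trans (card_biUnion_le_card_mul _ _ (2 * Δ) ?_) (by nlinarith)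
    intro p _
    refine card_image_le.trans ?_
    have h3 : C.filter (fun q => ¬ dis p q) ⊆ C.filter (fun q => q.1 = p.1 ∨ q.2 = p.1) ∪
        C.filter (fun q => q.1 = p.2 ∨ q.2 = p.2) := by
      intro q hq
      obtain ⟨hq1, hq2⟩ := mem_filter.1 hq
      rw [mem_union, mem_filter, mem_filter]
      by_contra hcon
      push Not at hcon
      obtain ⟨h4, h5⟩ := hcon
      have h4 := h4 hq1
      have h5 := h5 hq1
      exact hq2 ⟨h4.1.symm, h4.2.symm, h5.1.symm, h5.2.symm⟩
    have h4 := card_le_card h3
    have h5 := card_union_le (C.filter (fun q => q.1 = p.1 ∨ q.2 = p.1))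
      (C.filter (fun q => q.1 = p.2 ∨ q.2 = p.2))
    have h6 := inc_card hΔ C hS.sub p.1
    have h7 := inc_card hΔ C hS.sub p.2
    omega
  have c3 : 4 * N3.card ≤ P2.card := by
    -- twice the number of edges
    have h3 : 2 * C.card ≤ Δ * Fintype.card V := by
      have h4 := swap_sum (V := V) (fun v w => L.Adj v w) (fun _ _ h => h.symm)
        (fun v h => L.loopless.irrefl v h) key hk (fun _ => 1)
      have h5 : ∑ v, ∑ w ∈ univ.filter (fun w => L.Adj v w), (1 : ℤ) ≤ ∑ _v : V, (Δ : ℤ) := by
        apply sum_le_sum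
        intro v _
        rw [sum_const, nsmul_eq_mul, mul_one]
        exact_mod_cast hΔ v
      rw [sum_const, nsmul_eq_mul, card_univ] at h5
      rw [h4, sum_const, nsmul_eq_mul] at h5
      have h6 : C ⊆ (univ : Finset (V × V)).filter
          (fun p => L.Adj p.1 p.2 ∧ key p.1 < key p.2) := by
        intro p hp
        exact mem_filter.2 ⟨mem_univ _, hS.sub p hp⟩
      have h7 := card_le_card h6
      have h8 : ((C.card : ℕ) : ℤ) ≤ (((univ : Finset (V × V)).filter
          (fun p => L.Adj p.1 p.2 ∧ key p.1 < key p.2)).card : ℤ) := by exact_mod_cast h7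
      have h9 : ((2 * C.card : ℕ) : ℤ) ≤ ((Δ * Fintype.card V : ℕ) : ℤ) := by
        push_cast
        linarith
      exact_mod_cast h9
    have hcap : 8 < cap := by
      by_contra hc
      push Not at hc
      obtain ⟨p, hp⟩ := hB0
      have h4 : 0 < Δ := by
        have h5 := hΔ p.1
        have h6 : 0 < (univ.filter fun w => L.Adj p.1 w).card :=
          card_pos.2 ⟨p.2, mem_filter.2 ⟨mem_univ _, (hBD p hp).1⟩⟩
        omega
      have h5 : 0 < Fintype.card V := Fintype.card_pos_iff.2 ⟨p.1⟩
      have h6 : 0 < Δ * Fintype.card V := Nat.mul_pos h4 h5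
      nlinarith
    have h4 : N3.card * (cap - 8) ≤ 2 * C.card := by
      have h5 : ∑ b ∈ N3, (cap - 8) ≤ ∑ b ∈ N3, 2 * (C.filter (fun p => col p = b)).card := by
        apply sum_le_sum
        intro b hb
        have := (mem_filter.1 hb).2
        omega
      rw [sum_const, smul_eq_mul, ← mul_sum] at h5
      have h6 : ∑ b ∈ N3, (C.filter (fun p => col p = b)).card ≤ C.card := by
        rw [← card_biUnion]
        · exact card_le_card (biUnion_subset.2 fun b _ => filter_subset _ _)
        · intro b _ b' _ hbb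
          rw [Function.onFun, Finset.disjoint_left]
          intro p hp hp'
          exact hbb ((mem_filter.1 hp).2.symm.trans (mem_filter.1 hp').2)
      omega
    obtain ⟨e, rfl⟩ : ∃ e, cap = e + 8 := ⟨cap - 8, by omega⟩
    rw [Nat.add_sub_cancel] at h4
    have h7 : 4 * N3.card * e ≤ P2.card * e := by nlinarith
    exact Nat.le_of_mul_le_mul_right h7 (by omega)
  obtain ⟨b, hb, hbn⟩ : ∃ b ∈ P2, b ∉ ((N1 ∪ N2) ∪ (N3 ∪ Bad)) := by
    by_contra hcon
    push Not at hcon
    have h3 := card_le_card (show P2 ⊆ (N1 ∪ N2) ∪ (N3 ∪ Bad) from hcon)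
    have h4 := card_union_le (N1 ∪ N2) (N3 ∪ Bad)
    have h5 := card_union_le N1 N2
    have h6 := card_union_le N3 Bad
    omega
  rw [mem_union, mem_union, mem_union] at hbn
  push Not at hbn
  obtain ⟨⟨n1, n2⟩, n3, n4⟩ := hbn
  refine ⟨b, hb, n4, ?_, ?_, ?_, ?_⟩
  · intro p hp
    rcases mem_union.1 hp with h | h
    · exact hS.sub p h
    · exact hBD p h
  · have key1 : ∀ p ∈ B, ∀ q ∈ C, q ∉ B → b = col q → dis p q := by
      intro p hp q hq _ hbq
      by_contra hcon
      apply n2
      rw [hN2, mem_biUnion]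
      exact ⟨p, hp, mem_image.2 ⟨q, mem_filter.2 ⟨hq, hcon⟩, hbq.symm⟩⟩
    intro p hp q hq hpq hcol
    by_cases h3 : p ∈ B <;> by_cases h4 : q ∈ B
    · exact hBd p h3 q h4 hpq
    · simp only [if_pos h3, if_neg h4] at hcol
      exact key1 p h3 q ((mem_union.1 hq).resolve_right h4) h4 hcol
    · simp only [if_neg h3, if_pos h4] at hcol
      exact dis_symm (key1 q h4 p ((mem_union.1 hp).resolve_right h3) h3 hcol.symm)
    · simp only [if_neg h3, if_neg h4] at hcol
      exact hS.pr p ((mem_union.1 hp).resolve_right h3) q ((mem_union.1 hq).resolve_right h4) hpq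
        hcol
  · intro p hp
    by_cases h3 : p ∈ B
    · simp only [if_pos h3]
      refine ⟨hb, fun h => n1 ?_, fun h => n1 ?_⟩
      · rw [hN1, mem_biUnion]
        exact ⟨p, h3, mem_union_left _ (mem_inter.2 ⟨h, hb⟩)⟩
      · rw [hN1, mem_biUnion]
        exact ⟨p, h3, mem_union_right _ (mem_inter.2 ⟨h, hb⟩)⟩
    · simp only [if_neg h3]
      exact hS.inn p ((mem_union.1 hp).resolve_right h3)
  · intro b' hb'
    rw [upd_card C B hBC col b b']
    have h3 := hS.ld b' hb'
    by_cases h4 : b' = b
    · rw [if_pos h4]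
      have h5 : ¬ (cap < 2 * (C.filter (fun p => col p = b')).card + 8) := by
        intro h5
        apply n3
        rw [hN3, mem_filter]
        rw [h4] at h5
        exact ⟨hb, h5⟩
      omega
    · rw [if_neg h4]
      omega

/-- signed sum of the ends of `p` in the part `i` -/
noncomputable def S (sd pt : V → Bool) (i : Bool) (p : V × V) : ℤ :=
  (if pt p.1 = i then sgv (sd p.1) else 0) + if pt p.2 = i then sgv (sd p.2) else 0

theorem star (T : Finset (V × V)) (h : ∀ p ∈ T, ∀ q ∈ T, p.1 = q.1 ∨ p.2 = q.2) :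
    ∃ v : Option V, ∀ p ∈ T, some p.1 = v ∨ some p.2 = v := by
  rcases T.eq_empty_or_nonempty with h0 | ⟨p0, hp0⟩
  · exact ⟨none, fun p hp => by rw [h0] at hp; exact absurd hp (notMem_empty _)⟩
  · by_cases h1 : ∀ p ∈ T, p.1 = p0.1
    · exact ⟨some p0.1, fun p hp => Or.inl (by rw [h1 p hp])⟩
    · push Not at h1
      obtain ⟨p1, hp1, h2⟩ := h1
      have h3 : p1.2 = p0.2 := (h p1 hp1 p0 hp0).resolve_left h2
      refine ⟨some p0.2, fun q hq => Or.inr ?_⟩
      rcases h q hq p0 hp0 with h4 | h4
      · rcases h q hq p1 hp1 with h5 | h5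
        · exact absurd (h5.symm.trans h4) h2
        · rw [h5, h3]
      · rw [h4]

theorem dis_of {sd pt : V → Bool} {p q : V × V} (h1 : pt p.1 ≠ pt q.1 ∨ sd p.1 ≠ sd q.1)
    (h2 : pt p.1 ≠ pt q.2 ∨ sd p.1 ≠ sd q.2) (h3 : pt p.2 ≠ pt q.1 ∨ sd p.2 ≠ sd q.1)
    (h4 : pt p.2 ≠ pt q.2 ∨ sd p.2 ≠ sd q.2) : dis p q := by
  refine ⟨?_, ?_, ?_, ?_⟩
  · intro h; rw [h] at h1; rcases h1 with h1 | h1 <;> exact h1 rfl
  · intro h; rw [h] at h2; rcases h2 with h1 | h1 <;> exact h1 rfl
  · intro h; rw [h] at h3; rcases h3 with h1 | h1 <;> exact h1 rfl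
  · intro h; rw [h] at h4; rcases h4 with h1 | h1 <;> exact h1 rfl

theorem arith (A1 A2 B1 B2 C1 C2 E1 E2 s Δ N : ℕ)
    (tot : N = A1 + A2 + (B1 + B2) + (C1 + C2) + (E1 + E2))
    (x1 : 2 * A1 + C1 + E1 ≤ s + (2 * A2 + C2 + E2))
    (x2 : 2 * A2 + C2 + E2 ≤ s + (2 * A1 + C1 + E1))
    (y1 : 2 * B1 + C1 + E2 ≤ s + (2 * B2 + C2 + E1))
    (y2 : 2 * B2 + C2 + E1 ≤ s + (2 * B1 + C1 + E2))
    (a0 : A1 = 0 ∨ A2 = 0) (b0 : B1 = 0 ∨ B2 = 0) (c0 : C1 = 0 ∨ C2 = 0) (e0 : E1 = 0 ∨ E2 = 0)
    (f1 : 0 < A1 → 0 < B1 → C2 ≤ Δ) (f2 : 0 < A2 → 0 < B2 → C1 ≤ Δ)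
    (f3 : 0 < A1 → 0 < B2 → E2 ≤ Δ) (f4 : 0 < A2 → 0 < B1 → E1 ≤ Δ)
    (t1 : 0 < A1 → 0 < C2 → 0 < E2 → C2 ≤ Δ ∧ E2 ≤ Δ)
    (t2 : 0 < A2 → 0 < C1 → 0 < E1 → C1 ≤ Δ ∧ E1 ≤ Δ)
    (t3 : 0 < B1 → 0 < C2 → 0 < E1 → C2 ≤ Δ ∧ E1 ≤ Δ)
    (t4 : 0 < B2 → 0 < C1 → 0 < E2 → C1 ≤ Δ ∧ E2 ≤ Δ) : N ≤ 3 * (s + Δ) := by
  subst tot
  rcases a0 with rfl | rfl <;> rcases b0 with rfl | rfl <;> rcases c0 with rfl | rfl <;>
    rcases e0 with rfl | rfl <;>
    simp only [lt_self_iff_false, false_implies, implies_true, Nat.zero_le] at f1 f2 f3 f4 t1 t2 t3 t4 <;>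
    omega

/-- without bundles there are few edges -/
theorem few {L : SimpleGraph V} {key : V → ℕ} {sd pt : V → Bool}
    (hside : ∀ v w, L.Adj v w → pt v = pt w → sd v = sd w)
    (hkey : ∀ v w, key v < key w → pt w = false → pt v = false)
    {Δ s : ℕ} (U : Finset (V × V)) (hU : ∀ p ∈ U, L.Adj p.1 p.2 ∧ key p.1 < key p.2)
    (hinc : ∀ v, (U.filter (fun q => q.1 = v ∨ q.2 = v)).card ≤ Δ)
    (hs : ∀ i, |∑ p ∈ U, S sd pt i p| ≤ (s : ℤ))
    (nob : ∀ ℓ : List (V × V), ℓ ≠ [] → ℓ.length ≤ 4 → (∀ p ∈ ℓ, p ∈ U) → ℓ.Pairwise dis →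
      (∀ i, (ℓ.map (S sd pt i)).sum = 0) → False) :
    U.card ≤ 3 * (s + Δ) := by
  set cl : Bool → Bool → Bool → Bool → Finset (V × V) := fun a b c d =>
    U.filter (fun p => pt p.1 = a ∧ pt p.2 = b ∧ sd p.1 = c ∧ sd p.2 = d) with hcl
  have mcl : ∀ {a b c d p}, p ∈ cl a b c d ↔
      p ∈ U ∧ pt p.1 = a ∧ pt p.2 = b ∧ sd p.1 = c ∧ sd p.2 = d := by
    intro a b c d p
    rw [hcl]
    exact mem_filter
  have dec : ∀ h : V × V → ℤ, ∑ p ∈ U, h p =
      (∑ p ∈ cl false false false false, h p + ∑ p ∈ cl false false true true, h p) +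
      (∑ p ∈ cl true true false false, h p + ∑ p ∈ cl true true true true, h p) +
      (∑ p ∈ cl false true false false, h p + ∑ p ∈ cl false true true true, h p) +
      (∑ p ∈ cl false true false true, h p + ∑ p ∈ cl false true true false, h p) := by
    intro h
    rw [hcl]
    simp only [sum_filter, ← sum_add_distrib]
    apply sum_congr rfl
    intro p hp
    obtain ⟨h1, h2⟩ := hU p hp
    have h3 := hside _ _ h1
    have h4 := hkey _ _ h2
    rcases e1 : pt p.1 <;> rcases e2 : pt p.2 <;> rcases e3 : sd p.1 <;> rcases e4 : sd p.2 <;>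
      simp_all
  have cst : ∀ (h : V × V → ℤ) (r : ℤ) (a b c d : Bool), (∀ p, pt p.1 = a → pt p.2 = b →
      sd p.1 = c → sd p.2 = d → h p = r) → ∑ p ∈ cl a b c d, h p = (cl a b c d).card * r := by
    intro h r a b c d hh
    rw [sum_congr rfl (g := fun _ => r), sum_const, nsmul_eq_mul]
    intro p hp
    obtain ⟨_, h1, h2, h3, h4⟩ := mcl.1 hp
    exact hh p h1 h2 h3 h4
  have tot := dec (fun _ => 1)
  have s0 := dec (S sd pt false)
  have s1 := dec (S sd pt true)
  have hs0 := hs false
  have hs1 := hs true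
  rw [cst _ 2 false false false false (by intro p h1 h2 h3 h4; simp [S, sgv, h1, h2, h3, h4]),
    cst _ (-2) false false true true (by intro p h1 h2 h3 h4; simp [S, sgv, h1, h2, h3, h4]),
    cst _ 0 true true false false (by intro p h1 h2 h3 h4; simp [S, sgv, h1, h2, h3, h4]),
    cst _ 0 true true true true (by intro p h1 h2 h3 h4; simp [S, sgv, h1, h2, h3, h4]),
    cst _ 1 false true false false (by intro p h1 h2 h3 h4; simp [S, sgv, h1, h2, h3, h4]),
    cst _ (-1) false true true true (by intro p h1 h2 h3 h4; simp [S, sgv, h1, h2, h3, h4]),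
    cst _ 1 false true false true (by intro p h1 h2 h3 h4; simp [S, sgv, h1, h2, h3, h4]),
    cst _ (-1) false true true false (by intro p h1 h2 h3 h4; simp [S, sgv, h1, h2, h3, h4])] at s0
  rw [cst _ 0 false false false false (by intro p h1 h2 h3 h4; simp [S, sgv, h1, h2, h3, h4]),
    cst _ 0 false false true true (by intro p h1 h2 h3 h4; simp [S, sgv, h1, h2, h3, h4]),
    cst _ 2 true true false false (by intro p h1 h2 h3 h4; simp [S, sgv, h1, h2, h3, h4]),
    cst _ (-2) true true true true (by intro p h1 h2 h3 h4; simp [S, sgv, h1, h2, h3, h4]),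
    cst _ 1 false true false false (by intro p h1 h2 h3 h4; simp [S, sgv, h1, h2, h3, h4]),
    cst _ (-1) false true true true (by intro p h1 h2 h3 h4; simp [S, sgv, h1, h2, h3, h4]),
    cst _ (-1) false true false true (by intro p h1 h2 h3 h4; simp [S, sgv, h1, h2, h3, h4]),
    cst _ 1 false true true false (by intro p h1 h2 h3 h4; simp [S, sgv, h1, h2, h3, h4])] at s1
  simp only [sum_const, nsmul_eq_mul, mul_one] at tot
  rw [abs_le] at hs0 hs1
  have tot' : U.card = (cl false false false false).card + (cl false false true true).card +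
      ((cl true true false false).card + (cl true true true true).card) +
      ((cl false true false false).card + (cl false true true true).card) +
      ((cl false true false true).card + (cl false true true false).card) := by
    exact_mod_cast tot
  have x1 : 2 * (cl false false false false).card + (cl false true false false).card +
      (cl false true false true).card ≤ s + (2 * (cl false false true true).card +
        (cl false true true true).card + (cl false true true false).card) := by omega
  have x2 : 2 * (cl false false true true).card +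
        (cl false true true true).card + (cl false true true false).card ≤
      s + (2 * (cl false false false false).card + (cl false true false false).card +
      (cl false true false true).card) := by omega
  have y1 : 2 * (cl true true false false).card + (cl false true false false).card +
      (cl false true true false).card ≤ s + (2 * (cl true true true true).card +
        (cl false true true true).card + (cl false true false true).card) := by omega
  have y2 : 2 * (cl true true true true).card +
        (cl false true true true).card + (cl false true false true).card ≤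
      s + (2 * (cl true true false false).card + (cl false true false false).card +
      (cl false true true false).card) := by omega
  -- no bundles of two edges
  have pair : ∀ a b c d a' b' c' d' : Bool, (∀ i, (if a = i then sgv c else 0) +
      (if b = i then sgv d else 0) + ((if a' = i then sgv c' else 0) +
      (if b' = i then sgv d' else 0)) = 0) → (a ≠ a' ∨ c ≠ c') → (a ≠ b' ∨ c ≠ d') →
      (b ≠ a' ∨ d ≠ c') → (b ≠ b' ∨ d ≠ d') →
      (cl a b c d).card = 0 ∨ (cl a' b' c' d').card = 0 := by
    intro a b c d a' b' c' d' hz k1 k2 k3 k4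
    by_contra hcon
    push Not at hcon
    obtain ⟨p, hp⟩ := card_pos.1 (Nat.pos_of_ne_zero hcon.1)
    obtain ⟨q, hq⟩ := card_pos.1 (Nat.pos_of_ne_zero hcon.2)
    obtain ⟨pU, p1, p2, p3, p4⟩ := mcl.1 hp
    obtain ⟨qU, q1, q2, q3, q4⟩ := mcl.1 hq
    refine nob [p, q] (by simp) (by simp) (by simp [pU, qU]) ?_ ?_
    · simp only [List.pairwise_cons, List.mem_singleton, forall_eq, List.not_mem_nil,
        false_implies, implies_true, List.Pairwise.nil, and_true]
      exact dis_of (sd := sd) (pt := pt) (by rw [p1, q1, p3, q3]; exact k1)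
        (by rw [p1, q2, p3, q4]; exact k2)
        (by rw [p2, q1, p4, q3]; exact k3) (by rw [p2, q2, p4, q4]; exact k4)
    · intro i
      have := hz i
      simp only [List.map_cons, List.map_nil, List.sum_cons, List.sum_nil, add_zero, S,
        p1, p2, p3, p4, q1, q2, q3, q4]
      exact this
  have a0 := pair false false false false false false true true (by decide) (by decide)
    (by decide) (by decide) (by decide)
  have b0 := pair true true false false true true true true (by decide) (by decide)
    (by decide) (by decide) (by decide)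
  have c0 := pair false true false false false true true true (by decide) (by decide)
    (by decide) (by decide) (by decide)
  have e0 := pair false true false true false true true false (by decide) (by decide)
    (by decide) (by decide) (by decide)
  -- stars
  have st : ∀ T ⊆ U, (∀ p ∈ T, ∀ q ∈ T, p.1 = q.1 ∨ p.2 = q.2) → T.card ≤ Δ := by
    intro T hT h
    obtain ⟨v, hv⟩ := star T h
    rcases v with _ | v
    · have : T = ∅ := by
        apply eq_empty_of_forall_notMem
        intro p hp
        rcases hv p hp with h | h <;> exact absurd h (by simp)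
      rw [this, card_empty]
      exact Nat.zero_le _
    · refine (card_le_card ?_).trans (hinc v)
      intro p hp
      refine mem_filter.2 ⟨hT hp, ?_⟩
      rcases hv p hp with h | h
      · exact Or.inl (Option.some.inj h)
      · exact Or.inr (Option.some.inj h)
  have clU : ∀ a b c d, cl a b c d ⊆ U := fun a b c d p hp => (mcl.1 hp).1
  -- bundles of four edges
  have four : ∀ σ ρ : Bool, 0 < (cl false false σ σ).card → 0 < (cl true true ρ ρ).card →
      (cl false true (!σ) (!ρ)).card ≤ Δ := by
    intro σ ρ ha hb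
    obtain ⟨a, ha⟩ := card_pos.1 ha
    obtain ⟨b, hb⟩ := card_pos.1 hb
    obtain ⟨aU, a1, a2, a3, a4⟩ := mcl.1 ha
    obtain ⟨bU, b1, b2, b3, b4⟩ := mcl.1 hb
    apply st _ (clU _ _ _ _)
    intro p hp q hq
    obtain ⟨pU, p1, p2, p3, p4⟩ := mcl.1 hp
    obtain ⟨qU, q1, q2, q3, q4⟩ := mcl.1 hq
    by_contra hcon
    push Not at hcon
    refine nob [a, b, p, q] (by simp) (by simp) (by simp [aU, bU, pU, qU]) ?_ ?_
    · simp only [List.pairwise_cons, List.mem_cons, List.not_mem_nil, or_false, forall_eq_or_imp,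
        forall_eq, false_implies, implies_true, List.Pairwise.nil, and_true]
      refine ⟨⟨dis_of (sd := sd) (pt := pt) ?_ ?_ ?_ ?_, dis_of (sd := sd) (pt := pt) ?_ ?_ ?_ ?_,
        dis_of (sd := sd) (pt := pt) ?_ ?_ ?_ ?_⟩, ⟨dis_of (sd := sd) (pt := pt) ?_ ?_ ?_ ?_,
        dis_of (sd := sd) (pt := pt) ?_ ?_ ?_ ?_⟩, ⟨hcon.1, ?_, ?_, hcon.2⟩⟩
      · simp [a1, b1]
      · simp [a1, b2]
      · simp [a2, b1]
      · simp [a2, b2]
      · simp [a3, p3]
      · simp [a1, p2]
      · simp [a4, p3]
      · simp [a2, p2]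
      · simp [a3, q3]
      · simp [a1, q2]
      · simp [a4, q3]
      · simp [a2, q2]
      · simp [b1, p1]
      · simp [b3, p4]
      · simp [b2, p1]
      · simp [b4, p4]
      · simp [b1, q1]
      · simp [b3, q4]
      · simp [b2, q1]
      · simp [b4, q4]
      · intro h; rw [h, q2] at p1; exact absurd p1 (by simp)
      · intro h; rw [h, q1] at p2; exact absurd p2 (by simp)
    · intro i
      simp only [List.map_cons, List.map_nil, List.sum_cons, List.sum_nil, add_zero, S,
        p1, p2, p3, p4, q1, q2, q3, q4, a1, a2, a3, a4, b1, b2, b3, b4]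
      cases i <;> cases σ <;> cases ρ <;> simp [sgv]
  -- bundles of three edges
  have three : ∀ σ : Bool, 0 < (cl false false σ σ).card → 0 < (cl false true (!σ) (!σ)).card →
      0 < (cl false true (!σ) σ).card →
      (cl false true (!σ) (!σ)).card ≤ Δ ∧ (cl false true (!σ) σ).card ≤ Δ := by
    intro σ ha hc he
    obtain ⟨a, ha⟩ := card_pos.1 ha
    obtain ⟨c, hc⟩ := card_pos.1 hc
    obtain ⟨e, he⟩ := card_pos.1 he
    obtain ⟨aU, a1, a2, a3, a4⟩ := mcl.1 ha
    have key1 : ∀ p ∈ cl false true (!σ) (!σ), ∀ q ∈ cl false true (!σ) σ, p.1 = q.1 := by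
      intro p hp q hq
      obtain ⟨pU, p1, p2, p3, p4⟩ := mcl.1 hp
      obtain ⟨qU, q1, q2, q3, q4⟩ := mcl.1 hq
      by_contra hcon
      refine nob [a, p, q] (by simp) (by simp) (by simp [aU, pU, qU]) ?_ ?_
      · simp only [List.pairwise_cons, List.mem_cons, List.not_mem_nil, or_false,
          forall_eq_or_imp, forall_eq, false_implies, implies_true, List.Pairwise.nil, and_true]
        refine ⟨⟨dis_of (sd := sd) (pt := pt) ?_ ?_ ?_ ?_,
          dis_of (sd := sd) (pt := pt) ?_ ?_ ?_ ?_⟩, ⟨hcon, ?_, ?_, ?_⟩⟩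
        · simp [a3, p3]
        · simp [a1, p2]
        · simp [a4, p3]
        · simp [a2, p2]
        · simp [a3, q3]
        · simp [a1, q2]
        · simp [a4, q3]
        · simp [a2, q2]
        · intro h; rw [h, q2] at p1; exact absurd p1 (by simp)
        · intro h; rw [h, q1] at p2; exact absurd p2 (by simp)
        · intro h; rw [h, q4] at p4; exact absurd p4 (by simp)
      · intro i
        simp only [List.map_cons, List.map_nil, List.sum_cons, List.sum_nil, add_zero, S,
          p1, p2, p3, p4, q1, q2, q3, q4, a1, a2, a3, a4]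
        cases i <;> cases σ <;> simp [sgv]
    constructor
    · apply st _ (clU _ _ _ _)
      intro p hp q hq
      exact Or.inl ((key1 p hp e he).trans (key1 q hq e he).symm)
    · apply st _ (clU _ _ _ _)
      intro p hp q hq
      exact Or.inl ((key1 c hc p hp).symm.trans (key1 c hc q hq))
  have threeB : ∀ σ : Bool, 0 < (cl true true σ σ).card → 0 < (cl false true (!σ) (!σ)).card →
      0 < (cl false true σ (!σ)).card →
      (cl false true (!σ) (!σ)).card ≤ Δ ∧ (cl false true σ (!σ)).card ≤ Δ := by
    intro σ ha hc he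
    obtain ⟨a, ha⟩ := card_pos.1 ha
    obtain ⟨c, hc⟩ := card_pos.1 hc
    obtain ⟨e, he⟩ := card_pos.1 he
    obtain ⟨aU, a1, a2, a3, a4⟩ := mcl.1 ha
    have key1 : ∀ p ∈ cl false true (!σ) (!σ), ∀ q ∈ cl false true σ (!σ), p.2 = q.2 := by
      intro p hp q hq
      obtain ⟨pU, p1, p2, p3, p4⟩ := mcl.1 hp
      obtain ⟨qU, q1, q2, q3, q4⟩ := mcl.1 hq
      by_contra hcon
      refine nob [a, p, q] (by simp) (by simp) (by simp [aU, pU, qU]) ?_ ?_
      · simp only [List.pairwise_cons, List.mem_cons, List.not_mem_nil, or_false,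
          forall_eq_or_imp, forall_eq, false_implies, implies_true, List.Pairwise.nil, and_true]
        refine ⟨⟨dis_of (sd := sd) (pt := pt) ?_ ?_ ?_ ?_,
          dis_of (sd := sd) (pt := pt) ?_ ?_ ?_ ?_⟩, ⟨?_, ?_, ?_, hcon⟩⟩
        · simp [a3, p3]
        · simp [a3, p4]
        · simp [a4, p3]
        · simp [a4, p4]
        · simp [a1, q1]
        · simp [a3, q4]
        · simp [a2, q1]
        · simp [a4, q4]
        · intro h; rw [h, q3] at p3; exact absurd p3 (by simp)
        · intro h; rw [h, q2] at p1; exact absurd p1 (by simp)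
        · intro h; rw [h, q1] at p2; exact absurd p2 (by simp)
      · intro i
        simp only [List.map_cons, List.map_nil, List.sum_cons, List.sum_nil, add_zero, S,
          p1, p2, p3, p4, q1, q2, q3, q4, a1, a2, a3, a4]
        cases i <;> cases σ <;> simp [sgv]
    constructor
    · apply st _ (clU _ _ _ _)
      intro p hp q hq
      exact Or.inr ((key1 p hp e he).trans (key1 q hq e he).symm)
    · apply st _ (clU _ _ _ _)
      intro p hp q hq
      exact Or.inr ((key1 c hc p hp).symm.trans (key1 c hc q hq))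
  have four1 := four false false
  have four2 := four true true
  have four3 := four false true
  have four4 := four true false
  have three1 := three false
  have three2 := three true
  have three3 := threeB false
  have three4 := threeB true
  simp only [Bool.not_false, Bool.not_true] at four1 four2 four3 four4 three1 three2 three3 three4
  exact arith _ _ _ _ _ _ _ _ s Δ _ tot' x1 x2 y1 y2 a0 b0 c0 e0 four1 four2 four3 four4
    three1 three2 three3 three4

end LAMAux

open LAMAux in
theorem stmt_LAM : Stmt_LAM.{u} := by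
  intro V _ L sd pt P2 F Δ f s K cap hside hΔ hF hs h1 h2 h3 hK
  let n := Fintype.card V
  let e := Fintype.equivFin V
  let key : V → ℕ := fun v => (if pt v = true then n else 0) + (e v : ℕ)
  have hk : Function.Injective key := by
    intro v w h
    simp only [key] at h
    have hv := (e v).2
    have hw := (e w).2
    have h4 : (e v : ℕ) = e w := by split_ifs at h <;> omega
    exact e.injective (Fin.ext h4)
  have hkey : ∀ v w, key v < key w → pt w = false → pt v = false := by
    intro v w h hw
    rcases hv : pt v with _ | _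
    · rfl
    · exfalso
      simp only [key] at h
      rw [if_pos hv, if_neg (by rw [hw]; exact Bool.false_ne_true)] at h
      have := (e w).2
      omega
  let D : Finset (V × V) := univ.filter (fun p => L.Adj p.1 p.2 ∧ key p.1 < key p.2)
  have mD : ∀ p, p ∈ D ↔ L.Adj p.1 p.2 ∧ key p.1 < key p.2 := by
    intro p
    rw [mem_filter]
    exact ⟨fun h => h.2, fun h => ⟨mem_univ _, h⟩⟩
  -- phase 1
  obtain ⟨C, hCm, hCmax⟩ := exists_max_image (univ.filter (fun C : Finset (V × V) =>
    ∃ col, St L key F P2 cap C col ∧ ∀ b ∈ P2, ∀ i,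
      ∑ p ∈ C.filter (fun p => col p = b), S sd pt i p = 0)) card
    ⟨∅, mem_filter.2 ⟨mem_univ _, fun _ => 0, ⟨by simp, by simp, by simp, by simp⟩,
      by intro b _ i; simp⟩⟩
  obtain ⟨col, hSt, hZ⟩ := (mem_filter.1 hCm).2
  have hCD : C ⊆ D := fun p hp => (mD p).2 (hSt.sub p hp)
  have hUD : ∀ p ∈ D \ C, L.Adj p.1 p.2 ∧ key p.1 < key p.2 :=
    fun p hp => (mD p).1 (mem_sdiff.1 hp).1
  have hsum : ∀ i, |∑ p ∈ D \ C, S sd pt i p| ≤ (s : ℤ) := by
    intro i
    have h4 := hs i
    have h5 := swap_sum (fun v w => L.Adj v w) (fun _ _ h => h.symm)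
      (fun v h => L.loopless.irrefl v h) key hk (fun v => if pt v = i then sgv (sd v) else 0)
    have h6 : ∑ v ∈ univ.filter (fun v => pt v = i),
        sgv (sd v) * ((univ.filter fun w => L.Adj v w).card : ℤ) =
        ∑ v, ∑ w ∈ univ.filter (fun w => L.Adj v w), (if pt v = i then sgv (sd v) else 0) := by
      rw [sum_filter]
      apply sum_congr rfl
      intro v _
      rw [sum_const, nsmul_eq_mul]
      split_ifs
      · ring
      · ring
    rw [h6, h5] at h4
    have h7 : ∑ p ∈ D \ C, S sd pt i p + ∑ p ∈ C, S sd pt i p = ∑ p ∈ D, S sd pt i p :=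
      sum_sdiff hCD
    have h8 : ∑ p ∈ C, S sd pt i p = 0 := by
      rw [← sum_fiberwise_of_maps_to (g := col) (t := P2) (fun p hp => (hSt.inn p hp).1)]
      exact sum_eq_zero (fun b hb => hZ b hb i)
    rw [h8, add_zero] at h7
    rw [h7]
    exact h4
  have nob : ∀ ℓ : List (V × V), ℓ ≠ [] → ℓ.length ≤ 4 → (∀ p ∈ ℓ, p ∈ D \ C) →
      ℓ.Pairwise dis → (∀ i, (ℓ.map (S sd pt i)).sum = 0) → False := by
    intro ℓ h4 h5 h6 h7 h8
    have hnd : ℓ.Nodup := by
      refine h7.imp ?_
      intro a b hab heq
      rw [heq] at hab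
      exact hab.1 rfl
    have hdisj : Disjoint C ℓ.toFinset := by
      rw [Finset.disjoint_left]
      intro p hp hp'
      exact (mem_sdiff.1 (h6 p (List.mem_toFinset.1 hp'))).2 hp
    have hne : ℓ.toFinset.Nonempty := by
      obtain ⟨p, hp⟩ := List.exists_mem_of_ne_nil ℓ h4
      exact ⟨p, List.mem_toFinset.2 hp⟩
    obtain ⟨b, hb, _, hSt'⟩ := LAMAux.ext hk hΔ hF h1 h2 hSt ℓ.toFinset hne
      ((List.toFinset_card_le _).trans h5)
      (fun p hp => hUD p (h6 p (List.mem_toFinset.1 hp))) hdisj
      (fun p hp q hq hpq => by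
        have : Std.Symm (dis (V := V)) := ⟨fun _ _ h => dis_symm h⟩
        exact List.Pairwise.forall h7 (List.mem_toFinset.1 hp) (List.mem_toFinset.1 hq) hpq)
      ∅ (by simp)
    have h9 := hCmax (C ∪ ℓ.toFinset) (mem_filter.2 ⟨mem_univ _, _, hSt', by
      intro b' hb' i
      rw [upd_sum C ℓ.toFinset hdisj col b b', hZ b' hb' i, zero_add]
      split_ifs
      · rw [List.sum_toFinset _ hnd]
        exact h8 i
      · rfl⟩)
    rw [card_union_of_disjoint hdisj] at h9
    have := card_pos.2 hne
    omega
  have hfew : (D \ C).card ≤ 3 * (s + Δ) :=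
    few hside hkey (D \ C) hUD (fun v => inc_card hΔ _ hUD v) hsum nob
  -- phase 2
  have ph2 : ∀ W : Finset (V × V), W ⊆ D \ C → ∃ col, St L key F P2 cap (C ∪ W) col ∧
      ∀ b ∈ P2, (W.filter (fun p => col p = b)).card ≤ K ∧
        ∀ i, |∑ p ∈ (C ∪ W).filter (fun p => col p = b), S sd pt i p| ≤
          2 * ((W.filter (fun p => col p = b)).card : ℤ) := by
    intro W
    induction W using Finset.induction_on with
    | empty =>
      intro _
      refine ⟨col, by rw [union_empty]; exact hSt, ?_⟩
      intro b hb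
      refine ⟨by simp, ?_⟩
      intro i
      rw [union_empty, hZ b hb i]
      simp
    | insert p W hp ih =>
      intro hW
      obtain ⟨col1, hSt1, h4⟩ := ih ((subset_insert _ _).trans hW)
      have hpU : p ∈ D \ C := hW (mem_insert_self _ _)
      have hBad : 4 * (P2.filter (fun b => K ≤ (W.filter (fun p => col1 p = b)).card)).card ≤
          P2.card := by
        set Bad := P2.filter (fun b => K ≤ (W.filter (fun p => col1 p = b)).card) with hBd
        have h5 : ∑ b ∈ Bad, K ≤ ∑ b ∈ Bad, (W.filter (fun p => col1 p = b)).card :=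
          sum_le_sum (fun b hb => (mem_filter.1 hb).2)
        rw [sum_const, smul_eq_mul] at h5
        have h6 : ∑ b ∈ Bad, (W.filter (fun p => col1 p = b)).card ≤ W.card := by
          rw [← card_biUnion]
          · exact card_le_card (biUnion_subset.2 fun b _ => filter_subset _ _)
          · intro b _ b' _ hbb
            rw [Function.onFun, Finset.disjoint_left]
            intro p hp hp'
            exact hbb ((mem_filter.1 hp).2.symm.trans (mem_filter.1 hp').2)
        have h7 : W.card ≤ 3 * (s + Δ) :=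
          (card_le_card ((subset_insert _ _).trans hW)).trans hfew
        have h8 : 4 * Bad.card * K ≤ P2.card * K := by nlinarith
        exact Nat.le_of_mul_le_mul_right h8 (by omega)
      have hdj : Disjoint (C ∪ W) {p} := by
        rw [Finset.disjoint_singleton_right, mem_union]
        rintro (h | h)
        · exact (mem_sdiff.1 hpU).2 h
        · exact hp h
      have hdj2 : Disjoint W {p} := by
        rw [Finset.disjoint_singleton_right]
        exact hp
      obtain ⟨b, hb, hbn, hSt'⟩ := LAMAux.ext hk hΔ hF h1 h2 hSt1 {p} (singleton_nonempty _)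
        (by simp) (by
          intro q hq
          rw [mem_singleton.1 hq]
          exact hUD p hpU) hdj (by
          intro q hq r hr hqr
          exact absurd ((mem_singleton.1 hq).trans (mem_singleton.1 hr).symm) hqr) _ hBad
      have c1 : insert p W = W ∪ {p} := by
        rw [union_comm]
        rfl
      have c2 : C ∪ (W ∪ {p}) = (C ∪ W) ∪ {p} := (union_assoc _ _ _).symm
      refine ⟨fun q => if q ∈ ({p} : Finset (V × V)) then b else col1 q, ?_, ?_⟩
      · rw [c1, c2]
        exact hSt'
      · intro b' hb'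
        rw [c1, c2]
        obtain ⟨h5, h6⟩ := h4 b' hb'
        rw [upd_card W {p} hdj2 col1 b b']
        by_cases hbb : b' = b
        · rw [if_pos hbb, card_singleton]
          have h7 : ¬ (K ≤ (W.filter (fun p => col1 p = b')).card) := by
            intro h8
            apply hbn
            rw [mem_filter]
            rw [hbb] at h8
            exact ⟨hb, h8⟩
          refine ⟨by omega, ?_⟩
          intro i
          rw [upd_sum (C ∪ W) {p} hdj col1 b b', if_pos hbb, sum_singleton]
          have h8 := h6 i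
          have h9 : |S sd pt i p| ≤ 2 := by
            simp only [S, sgv]
            split_ifs <;> simp
          have h10 := abs_add_le (∑ q ∈ (C ∪ W).filter (fun q => col1 q = b'), S sd pt i q)
            (S sd pt i p)
          push_cast
          linarith
        · rw [if_neg hbb, add_zero]
          refine ⟨h5, ?_⟩
          intro i
          rw [upd_sum (C ∪ W) {p} hdj col1 b b', if_neg hbb, add_zero]
          exact h6 i
  obtain ⟨c, hc, hc2⟩ := ph2 (D \ C) (Subset.refl _)
  rw [union_sdiff_of_subset hCD] at hc hc2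
  -- the colouring
  let pr : V → V → V × V := fun v w => if key v < key w then (v, w) else (w, v)
  have hprD : ∀ v w, L.Adj v w → pr v w ∈ D := by
    intro v w h
    by_cases h4 : key v < key w
    · simp only [pr, if_pos h4]
      exact (mD _).2 ⟨h, h4⟩
    · simp only [pr, if_neg h4]
      refine (mD _).2 ⟨h.symm, ?_⟩
      have h5 : key v ≠ key w := fun h6 => h.ne (hk h6)
      simp only
      omega
  have hpr : ∀ v w, (pr v w = (v, w)) ∨ pr v w = (w, v) := by
    intro v w
    by_cases h4 : key v < key w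
    · exact Or.inl (if_pos h4)
    · exact Or.inr (if_neg h4)
  have hprs : ∀ v w, pr v w = pr w v := by
    intro v w
    rcases lt_trichotomy (key v) (key w) with h4 | h4 | h4
    · simp only [pr, if_pos h4, if_neg (not_lt.2 h4.le)]
    · rw [hk h4]
    · simp only [pr, if_pos h4, if_neg (not_lt.2 h4.le)]
  refine ⟨fun v w => c (pr v w), fun v w => by simp only [hprs v w], ?_, ?_, ?_, ?_⟩
  · intro v w h
    have h4 := hc.inn _ (hprD v w h)
    refine ⟨h4.1, ?_⟩
    rcases hpr v w with h5 | h5
    · have h6 := h4.2.1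
      have h7 : (pr v w).1 = v := by rw [h5]
      rw [h7] at h6
      exact h6
    · have h6 := h4.2.2
      have h7 : (pr v w).2 = v := by rw [h5]
      rw [h7] at h6
      exact h6
  · intro v w w' h h' heq
    by_contra hww
    have hne : pr v w ≠ pr v w' := by
      intro h4
      rcases hpr v w with h5 | h5 <;> rcases hpr v w' with h6 | h6 <;> rw [h5, h6] at h4 <;>
        simp only [Prod.mk.injEq] at h4
      · exact hww h4.2
      · exact hww (h4.2.trans h4.1)
      · exact hww (h4.1.trans h4.2)
      · exact hww h4.1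
    have h4 := hc.pr _ (hprD v w h) _ (hprD v w' h') hne heq
    rcases hpr v w with h5 | h5 <;> rcases hpr v w' with h6 | h6 <;> rw [h5, h6] at h4
    · exact h4.1 rfl
    · exact h4.2.1 rfl
    · exact h4.2.2.1 rfl
    · exact h4.2.2.2 rfl
  · intro b hb
    have h4 : (univ.filter fun v => ∃ w, L.Adj v w ∧ c (pr v w) = b) ⊆
        (D.filter (fun p => c p = b)).biUnion (fun p => {p.1, p.2}) := by
      intro v hv
      obtain ⟨w, h5, h6⟩ := (mem_filter.1 hv).2
      rw [mem_biUnion]
      refine ⟨pr v w, mem_filter.2 ⟨hprD v w h5, h6⟩, ?_⟩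
      rcases hpr v w with h7 | h7 <;> rw [h7] <;> simp
    refine (card_le_card h4).trans ?_
    refine (card_biUnion_le_card_mul _ _ 2 (fun p _ => card_le_two)).trans ?_
    have := hc.ld b hb
    omega
  · intro b hb i
    have h4 := swap_sum (fun v w => L.Adj v w ∧ c (pr v w) = b)
      (fun v w h => ⟨h.1.symm, by rw [← hprs]; exact h.2⟩)
      (fun v h => L.loopless.irrefl v h.1) key hk (fun v => if pt v = i then sgv (sd v) else 0)
    have h5 : ∑ v ∈ univ.filter (fun v => pt v = i ∧ ∃ w, L.Adj v w ∧ c (pr v w) = b),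
        sgv (sd v) = ∑ v, ∑ w ∈ univ.filter (fun w => L.Adj v w ∧ c (pr v w) = b),
          (if pt v = i then sgv (sd v) else 0) := by
      rw [sum_filter]
      apply sum_congr rfl
      intro v _
      rw [sum_const, nsmul_eq_mul]
      by_cases h6 : ∃ w, L.Adj v w ∧ c (pr v w) = b
      · have h7 : (univ.filter (fun w => L.Adj v w ∧ c (pr v w) = b)).card = 1 := by
          obtain ⟨w, hw⟩ := h6
          rw [card_eq_one]
          refine ⟨w, ?_⟩
          ext w'
          rw [mem_filter, mem_singleton]
          constructor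
          · rintro ⟨_, hw'⟩
            by_contra hww
            have hne : pr v w' ≠ pr v w := by
              intro h4
              rcases hpr v w' with h5 | h5 <;> rcases hpr v w with h6 | h6 <;>
                rw [h5, h6] at h4 <;> simp only [Prod.mk.injEq] at h4
              · exact hww h4.2
              · exact hww (h4.2.trans h4.1)
              · exact hww (h4.1.trans h4.2)
              · exact hww h4.1
            have h4 := hc.pr _ (hprD v w' hw'.1) _ (hprD v w hw.1) hne (hw'.2.trans hw.2.symm)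
            rcases hpr v w' with h5 | h5 <;> rcases hpr v w with h6 | h6 <;> rw [h5, h6] at h4
            · exact h4.1 rfl
            · exact h4.2.1 rfl
            · exact h4.2.2.1 rfl
            · exact h4.2.2.2 rfl
          · intro h
            rw [h]
            exact ⟨mem_univ _, hw⟩
        rw [h7]
        by_cases h8 : pt v = i
        · rw [if_pos ⟨h8, h6⟩, if_pos h8]
          simp
        · rw [if_neg (fun h => h8 h.1), if_neg h8]
          simp
      · have h7 : (univ.filter (fun w => L.Adj v w ∧ c (pr v w) = b)) = ∅ := by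
          apply filter_false_of_mem
          intro w _ hw
          exact h6 ⟨w, hw⟩
        rw [h7, if_neg (fun h => h6 h.2)]
        simp
    have h6 : ∑ p ∈ (univ : Finset (V × V)).filter
        (fun p => (L.Adj p.1 p.2 ∧ c (pr p.1 p.2) = b) ∧ key p.1 < key p.2),
        ((if pt p.1 = i then sgv (sd p.1) else 0) + if pt p.2 = i then sgv (sd p.2) else 0) =
        ∑ p ∈ D.filter (fun p => c p = b), S sd pt i p := by
      apply sum_congr _ (fun _ _ => rfl)
      ext p
      rw [mem_filter, mem_filter, mD]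
      constructor
      · rintro ⟨_, ⟨h7, h8⟩, h9⟩
        refine ⟨⟨h7, h9⟩, ?_⟩
        simp only [pr, if_pos h9] at h8
        exact h8
      · rintro ⟨⟨h7, h9⟩, h8⟩
        refine ⟨mem_univ _, ⟨h7, ?_⟩, h9⟩
        simp only [pr, if_pos h9]
        exact h8
    have hfin : ∑ v ∈ univ.filter (fun v => pt v = i ∧ ∃ w, L.Adj v w ∧ c (pr v w) = b),
        sgv (sd v) = ∑ p ∈ D.filter (fun p => c p = b), S sd pt i p := by
      rw [h5]
      refine Eq.trans ?_ (h4.trans (Eq.trans ?_ h6))
      · apply sum_congr rfl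
        intro v _
        apply sum_congr _ (fun _ _ => rfl)
        ext w
        simp only [mem_filter]
      · apply sum_congr _ (fun _ _ => rfl)
        ext p
        simp only [mem_filter]
    rw [hfin]
    obtain ⟨h7, h8⟩ := hc2 b hb
    have h9 := h8 i
    have h10 : (((D \ C).filter (fun p => c p = b)).card : ℤ) ≤ K := by exact_mod_cast h7
    linarith

end Pool.Agent.Work.MP_db9399_da_helper22
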